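import Pool.Agent.R838.KS.Stm

set_option autoImplicit false

/-! # Project KS (helper838), package CPT: a compactification of the Baire space with countable
remainder. The compact space is `ℕ → ℕ∞`; a sequence `a` is sent to the sequence of the codes of its
prefixes. -/

namespace Pool.Agent.U411.KS

open Set Topology Filter

/-- The code of the prefix of length `l + 1`. -/
def code (a : ℕ → ℕ) (l : ℕ) : ℕ := Encodable.encode ((List.range (l + 1)).map a)

theorem code_eq_iff {a b : ℕ → ℕ} {l : ℕ} : code a l = code b l ↔ ∀ i, i ≤ l → a i = b i := by
  unfold code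
  rw [Encodable.encode_inj, List.map_inj_left]
  constructor
  · intro h i hi
    exact h i (by rw [List.mem_range]; omega)
  · intro h i hi
    rw [List.mem_range] at hi
    exact h i (by omega)

/-- The entry `i` from the code of the prefix of length `i + 1`. -/
def dec (c : ℕ → ℕ) (i : ℕ) : ℕ :=
  (((Encodable.decode (c i) : Option (List ℕ)).getD []).getD i 0)

theorem dec_code (a : ℕ → ℕ) : dec (code a) = a := by
  funext i
  simp [dec, code]

theorem continuous_code : Continuous code := by
  refine continuous_pi fun l => ?_
  -- the coordinate depends on finitely many coordinates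
  have : (fun a : ℕ → ℕ => code a l) =
      (fun v : Fin (l + 1) → ℕ => Encodable.encode (List.ofFn v)) ∘
        (fun (a : ℕ → ℕ) (i : Fin (l + 1)) => a i) := by
    funext a
    simp only [code, Function.comp]
    congr 1
    apply List.ext_getElem
    · simp
    · intro i h1 h2
      simp only [List.getElem_map, List.getElem_range, List.getElem_ofFn]
  rw [this]
  exact (continuous_of_discreteTopology).comp (by fun_prop)

theorem continuous_dec : Continuous dec := by
  refine continuous_pi fun i => ?_
  have : (fun c : ℕ → ℕ => dec c i) =
      (fun n : ℕ => (((Encodable.decode n : Option (List ℕ)).getD []).getD i 0)) ∘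
        (fun c : ℕ → ℕ => c i) := rfl
  rw [this]
  exact (continuous_of_discreteTopology).comp (continuous_apply i)

theorem isEmbedding_code : IsEmbedding code := 
  IsEmbedding.of_leftInverse dec_code continuous_dec continuous_code

/-- The embedding in `ℕ → ℕ∞`. -/
def phi (a : ℕ → ℕ) (l : ℕ) : ℕ∞ := (code a l : ℕ∞)

theorem isEmbedding_phi : IsEmbedding phi := by
  have h1 : IsEmbedding (fun (c : ℕ → ℕ) (l : ℕ) => ((c l : ℕ) : ℕ∞)) :=
    IsEmbedding.piMap (fun _ => ENat.isEmbedding_natCast)
  exact h1.comp isEmbedding_code

/-- The possible points of the remainder. -/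
def psi (p : ℕ × List ℕ) (l : ℕ) : ℕ∞ :=
  if l < p.1 then phi (fun i => p.2.getD i 0) l else ⊤

theorem closure_subset : closure (range phi) \ range phi ⊆ range psi := by
  rintro c ⟨hc, hc'⟩
  rw [mem_closure_iff_seq_limit] at hc
  obtain ⟨x, hx, hlim⟩ := hc
  choose a ha using hx
  have hlim' : ∀ l, Tendsto (fun k => x k l) atTop (𝓝 (c l)) := by
    intro l
    exact (tendsto_pi_nhds.1 hlim) l
  have hfin : ∀ m, c m ≠ ⊤ → ∃ b : ℕ → ℕ, ∀ l ≤ m, c l = phi b l := by
    intro m hm
    have h1 := hlim' m
    rw [← ENat.natCast_toNat hm, ENat.nhds_natCast, tendsto_pure] at h1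
    obtain ⟨N, hN⟩ := eventually_atTop.1 h1
    refine ⟨a N, fun l hl => ?_⟩
    have h2 : ∀ k ≥ N, x k l = phi (a N) l := by
      intro k hk
      have h3 : x k m = x N m := by rw [hN k hk, hN N le_rfl]
      rw [← ha k, ← ha N] at h3
      have h4 : code (a k) m = code (a N) m := by
        simpa [phi] using h3
      rw [← ha k]
      have h5 : code (a k) l = code (a N) l := by
        rw [code_eq_iff] at h4 ⊢
        intro i hi
        exact h4 i (hi.trans hl)
      simp [phi, h5]
    refine tendsto_nhds_unique (hlim' l) ?_
    exact tendsto_const_nhds.congr' (by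
      filter_upwards [eventually_ge_atTop N] with k hk
      exact (h2 k hk).symm)
  by_cases hall : ∀ m, c m ≠ ⊤
  · exfalso
    apply hc'
    choose b hb using fun m => hfin m (hall m)
    refine ⟨fun i => b i i, ?_⟩
    funext l
    rw [hb l l le_rfl]
    have : code (fun i => b i i) l = code (b l) l := by
      rw [code_eq_iff]
      intro i hi
      have h1 : phi (b i) i = phi (b l) i := by
        rw [← hb i i le_rfl, ← hb l i hi]
      have h2 : code (b i) i = code (b l) i := by simpa [phi] using h1
      exact code_eq_iff.1 h2 i le_rfl
    simp [phi, this]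
  · push Not at hall
    classical
    have hex : ∃ m, c m = ⊤ := hall
    let m := Nat.find hex
    have hm : c m = ⊤ := Nat.find_spec hex
    have hmin : ∀ l < m, c l ≠ ⊤ := fun l hl => Nat.find_min hex hl
    have htop : ∀ l ≥ m, c l = ⊤ := by
      intro l hl
      by_contra hne
      obtain ⟨b, hb⟩ := hfin l hne
      have := hb m hl
      rw [hm] at this
      exact absurd this (by simp [phi])
    by_cases hm0 : m = 0
    · refine ⟨(0, []), ?_⟩
      funext l
      simp only [psi, Nat.not_lt_zero, if_false]
      exact (htop l (by omega)).symm
    · obtain ⟨b, hb⟩ := hfin (m - 1) (hmin (m - 1) (by omega))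
      refine ⟨(m, (List.range m).map b), ?_⟩
      funext l
      simp only [psi]
      split_ifs with hl
      · rw [hb l (by omega)]
        have : code (fun i => ((List.range m).map b).getD i 0) l = code b l := by
          rw [code_eq_iff]
          intro i hi
          have : i < m := by omega
          simp [List.getD, this]
        simp only [phi, this]
      · exact (htop l (by omega)).symm

theorem t_CPT : Pool.Agent.R838.KS.S_CPT :=
  ⟨ℕ → ℕ∞, inferInstance, inferInstance, inferInstance, phi, isEmbedding_phi,
    (countable_range psi).mono closure_subset⟩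

end Pool.Agent.U411.KS
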